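import Mathlib

/-!
# MP_9f93d5_co, Q1: the lazy cop number of the three-dimensional Hamming graph

The Hamming graph `H(3, m) = K_m □ K_m □ K_m` has lazy cop number larger than `K` as soon as
`2 (B - 1) + K / B < m` for some `B ≥ 1`; so its lazy cop number is at least about `m² / 8`, that
is `n^(2/3) / 8` for the number `n = m³` of vertices.  For `m = 64` we get a graph with
`n = 512²` vertices and lazy cop number at least `513`.
-/

namespace Pool.Agent.Results.MP_9f93d5_co.HammingCubes

section Game

variable {V : Type*}

/-- Stay, or move along an edge. -/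
def Step (G : SimpleGraph V) (u v : V) : Prop := u = v ∨ G.Adj u v

/-- A lazy move of the cops: at most one cop moves, along an edge. -/
def LazyMove (G : SimpleGraph V) {k : ℕ} (c c' : Fin k → V) : Prop :=
  (∀ i, Step G (c i) (c' i)) ∧ ∀ i j, c i ≠ c' i → c j ≠ c' j → i = j

/-- The cops, at `c` and to move, can catch the robber at `r` within `t` rounds. -/
def CatchWithin (G : SimpleGraph V) (k : ℕ) : ℕ → (Fin k → V) → V → Prop
  | 0, c, r => ∃ i, c i = r
  | t + 1, c, r => (∃ i, c i = r) ∨ ∃ c' : Fin k → V, LazyMove G c c' ∧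
      ((∃ i, c' i = r) ∨ ∀ r', Step G r r' → CatchWithin G k t c' r')

/-- `k` lazy cops have a winning strategy. -/
def LazyCopsWin (G : SimpleGraph V) (k : ℕ) : Prop :=
  ∃ c : Fin k → V, ∀ r : V, ∃ t, CatchWithin G k t c r

/-- The lazy cop number. -/
noncomputable def lazyCopNumber (G : SimpleGraph V) : ℕ := sInf {k : ℕ | LazyCopsWin G k}

theorem lazyCopsWin_card [Fintype V] (G : SimpleGraph V) : LazyCopsWin G (Fintype.card V) := by
  refine ⟨(Fintype.equivFin V).symm, fun r => ⟨0, Fintype.equivFin V r, ?_⟩⟩
  simp

end Game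

/-- The Hamming graph `H(3, m)`: two triples are adjacent if they differ in exactly one
coordinate. -/
def hamming (m : ℕ) : SimpleGraph (Fin 3 → Fin m) where
  Adj u v := ∃ i, u i ≠ v i ∧ ∀ j, j ≠ i → u j = v j
  symm := ⟨fun _ _ ⟨i, h1, h2⟩ => ⟨i, h1.symm, fun j hj => (h2 j hj).symm⟩⟩
  loopless := ⟨fun _ ⟨_, h1, _⟩ => h1 rfl⟩

variable {m k : ℕ}

/-- The number of cops in the plane `x_i = a`. -/
def inPlane (c : Fin k → Fin 3 → Fin m) (i : Fin 3) (a : Fin m) : ℕ :=
  (Finset.univ.filter (fun l => c l i = a)).card

theorem card_full (c : Fin k → Fin 3 → Fin m) (i : Fin 3) {B : ℕ} (hB : 1 ≤ B) :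
    (Finset.univ.filter (fun a => B ≤ inPlane c i a)).card ≤ k / B := by
  rw [Nat.le_div_iff_mul_le hB]
  have h1 : ∑ a : Fin m, inPlane c i a = k := by
    unfold inPlane
    rw [← Finset.card_eq_sum_card_fiberwise (f := fun l => c l i) (s := Finset.univ)
      (t := Finset.univ) (by intro x _; simp)]
    simp
  calc (Finset.univ.filter (fun a => B ≤ inPlane c i a)).card * B
      = ∑ a ∈ Finset.univ.filter (fun a => B ≤ inPlane c i a), B := by
        rw [Finset.sum_const, smul_eq_mul]
    _ ≤ ∑ a ∈ Finset.univ.filter (fun a => B ≤ inPlane c i a), inPlane c i a :=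
        Finset.sum_le_sum fun a ha => (Finset.mem_filter.mp ha).2
    _ ≤ ∑ a : Fin m, inPlane c i a :=
        Finset.sum_le_sum_of_subset (Finset.filter_subset _ _)
    _ = k := h1

/-- A good value for the coordinate `i`: the plane contains fewer than `B` cops, and the value is
not among the `i`-th coordinates of the cops of a set `L`. -/
theorem exists_value (c : Fin k → Fin 3 → Fin m) (i : Fin 3) {B : ℕ} (hB : 1 ≤ B)
    (L : Finset (Fin k)) (hL : L.card ≤ 2 * (B - 1)) (h : 2 * (B - 1) + k / B < m) :
    ∃ a, inPlane c i a ≤ B - 1 ∧ ∀ l ∈ L, c l i ≠ a := by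
  by_contra hcon
  push Not at hcon
  have hsub : (Finset.univ : Finset (Fin m)) ⊆
      Finset.univ.filter (fun a => B ≤ inPlane c i a) ∪ L.image (fun l => c l i) := by
    intro a _
    rw [Finset.mem_union, Finset.mem_filter, Finset.mem_image]
    by_cases ha : B ≤ inPlane c i a
    · exact Or.inl ⟨Finset.mem_univ a, ha⟩
    · obtain ⟨l, hl, hla⟩ := hcon a (by omega)
      exact Or.inr ⟨l, hl, hla⟩
  have h1 := Finset.card_le_card hsub
  rw [Finset.card_univ, Fintype.card_fin] at h1
  have h2 := Finset.card_union_le (Finset.univ.filter (fun a => B ≤ inPlane c i a))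
    (L.image (fun l => c l i))
  have h3 := card_full c i hB
  have h4 : (L.image (fun l => c l i)).card ≤ L.card := Finset.card_image_le
  omega

/-- The invariant: fewer than `B` cops in each of the three planes through the robber, and no
cop agrees with the robber in two coordinates. -/
def Safe (B : ℕ) (c : Fin k → Fin 3 → Fin m) (r : Fin 3 → Fin m) : Prop :=
  (∀ i, inPlane c i (r i) ≤ B - 1) ∧ ∀ l i j, i ≠ j → c l i = r i → c l j ≠ r j

theorem Safe.not_at {B : ℕ} {c : Fin k → Fin 3 → Fin m} {r : Fin 3 → Fin m} (h : Safe B c r)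
    (l : Fin k) : c l ≠ r := by
  intro he
  exact h.2 l 0 1 (by decide) (by rw [he]) (by rw [he])

theorem card_or_le (p q : Fin k → Prop) [DecidablePred p] [DecidablePred q] :
    (Finset.univ.filter (fun l => p l ∨ q l)).card ≤
      (Finset.univ.filter p).card + (Finset.univ.filter q).card := by
  rw [Finset.filter_or]
  exact Finset.card_union_le _ _

theorem exists_safe (c : Fin k → Fin 3 → Fin m) {B : ℕ} (hB : 1 ≤ B)
    (h : 2 * (B - 1) + k / B < m) : ∃ r, Safe B c r := by
  obtain ⟨a0, h0, -⟩ := exists_value c 0 hB ∅ (by simp) h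
  obtain ⟨a1, h1, h1'⟩ := exists_value c 1 hB (Finset.univ.filter (fun l => c l 0 = a0))
    (by unfold inPlane at h0; omega) h
  obtain ⟨a2, h2, h2'⟩ := exists_value c 2 hB
    (Finset.univ.filter (fun l => c l 0 = a0 ∨ c l 1 = a1)) (by
      have := card_or_le (fun l => c l 0 = a0) (fun l => c l 1 = a1)
      unfold inPlane at h0 h1
      omega) h
  refine ⟨![a0, a1, a2], ?_, ?_⟩
  · intro i
    fin_cases i
    · exact h0
    · exact h1
    · exact h2
  · intro l
    have e01 : c l 0 = a0 → c l 1 ≠ a1 := fun e => h1' l (by simpa using e)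
    have e02 : c l 0 = a0 → c l 2 ≠ a2 := fun e => h2' l (by simp [e])
    have e12 : c l 1 = a1 → c l 2 ≠ a2 := fun e => h2' l (by simp [e])
    intro i j hij
    fin_cases i <;> fin_cases j
    · exact absurd rfl hij
    · exact e01
    · exact e02
    · exact fun e e' => e01 e' e
    · exact absurd rfl hij
    · exact e12
    · exact fun e e' => e02 e' e
    · exact fun e e' => e12 e' e
    · exact absurd rfl hij

theorem step_update (r : Fin 3 → Fin m) (i : Fin 3) (a : Fin m) :
    Step (hamming m) r (Function.update r i a) := by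
  by_cases h : r i = a
  · left
    rw [← h, Function.update_eq_self]
  · right
    refine ⟨i, by simpa using h, fun j hj => ?_⟩
    rw [Function.update_of_ne hj]

theorem two_others : ∀ i₀ : Fin 3, ∃ p q : Fin 3, p ≠ i₀ ∧ q ≠ i₀ ∧ p ≠ q ∧
    ∀ i, i ≠ i₀ → i = p ∨ i = q := by decide

/-- The robber can restore the invariant after every lazy move of the cops. -/
theorem respond {B : ℕ} (hB : 1 ≤ B) (h : 2 * (B - 1) + k / B < m)
    {c c' : Fin k → Fin 3 → Fin m} {r : Fin 3 → Fin m} (hs : Safe B c r)
    (hm : LazyMove (hamming m) c c') :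
    (∀ l, c' l ≠ r) ∧ ∃ r', Step (hamming m) r r' ∧ Safe B c' r' := by
  classical
  by_cases hex : ∃ j, c j ≠ c' j
  · obtain ⟨j, hj⟩ := hex
    have hother : ∀ l, l ≠ j → c' l = c l := by
      intro l hl
      by_contra hne
      exact hl (hm.2 l j (fun e => hne e.symm) hj)
    obtain ⟨i₀, hi₀, hi⟩ : ∃ i, c j i ≠ c' j i ∧ ∀ i', i' ≠ i → c j i' = c' j i' := by
      rcases hm.1 j with he | he
      · exact absurd he hj
      · exact he
    -- the moved cop is not at `r`
    have hnr : ∀ l, c' l ≠ r := by
      intro l hl
      by_cases hlj : l = j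
      · subst hlj
        obtain ⟨p, q, hp, hq, hpq, -⟩ := two_others i₀
        exact hs.2 l p q hpq (by rw [hi p hp, hl]) (by rw [hi q hq, hl])
      · rw [hother l hlj] at hl
        exact hs.not_at l hl
    refine ⟨hnr, ?_⟩
    by_cases hin : c' j i₀ = r i₀
    · -- the cop has entered the plane `i₀`
      let L : Finset (Fin k) := Finset.univ.filter (fun l => ∃ i, i ≠ i₀ ∧ c' l i = r i)
      have hplane : ∀ i, i ≠ i₀ → inPlane c' i (r i) = inPlane c i (r i) := by
        intro i hne
        unfold inPlane
        congr 1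
        ext l
        simp only [Finset.mem_filter, Finset.mem_univ, true_and]
        by_cases hlj : l = j
        · rw [hlj, ← hi i hne]
        · rw [hother l hlj]
      have hL : L.card ≤ 2 * (B - 1) := by
        obtain ⟨p, q, hp, hq, -, hpq⟩ := two_others i₀
        have hsub : L ⊆ Finset.univ.filter (fun l => c' l p = r p ∨ c' l q = r q) := by
          intro l hl
          obtain ⟨i, hne, hli⟩ := (Finset.mem_filter.mp hl).2
          rw [Finset.mem_filter]
          refine ⟨Finset.mem_univ l, ?_⟩
          rcases hpq i hne with rfl | rfl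
          · exact Or.inl hli
          · exact Or.inr hli
        have h1 := Finset.card_le_card hsub
        have h2 := card_or_le (fun l => c' l p = r p) (fun l => c' l q = r q)
        have h3 := hplane p hp
        have h4 := hplane q hq
        have h5 := hs.1 p
        have h6 := hs.1 q
        unfold inPlane at h3 h4 h5 h6
        omega
      obtain ⟨a, ha, haL⟩ := exists_value c' i₀ hB L hL h
      refine ⟨Function.update r i₀ a, step_update r i₀ a, ?_, ?_⟩
      · intro i
        by_cases hii : i = i₀
        · subst hii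
          rw [Function.update_self]
          exact ha
        · rw [Function.update_of_ne hii, hplane i hii]
          exact hs.1 i
      · -- no cop agrees with the new position in two coordinates
        have key : ∀ l i, i ≠ i₀ → c' l i = r i → c' l i₀ ≠ a := by
          intro l i hne hli
          exact haL l (Finset.mem_filter.mpr ⟨Finset.mem_univ l, i, hne, hli⟩)
        intro l i i' hne
        by_cases h1 : i = i₀
        · subst h1
          have h2 : i' ≠ i := fun e => hne e.symm
          rw [Function.update_self, Function.update_of_ne h2]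
          exact fun e e' => key l i' h2 e' e
        · by_cases h2 : i' = i₀
          · subst h2
            rw [Function.update_self, Function.update_of_ne h1]
            exact fun e e' => key l i h1 e e'
          · rw [Function.update_of_ne h1, Function.update_of_ne h2]
            intro e e'
            by_cases hlj : l = j
            · subst hlj
              rw [← hi i h1] at e
              rw [← hi i' h2] at e'
              exact hs.2 l i i' hne e e'
            · rw [hother l hlj] at e e'
              exact hs.2 l i i' hne e e'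
    · -- the robber stays
      have hagree : ∀ l i, c' l i = r i → c l i = r i := by
        intro l i e
        by_cases hlj : l = j
        · subst hlj
          by_cases hii : i = i₀
          · subst hii
            exact absurd e hin
          · rw [hi i hii]
            exact e
        · rw [← hother l hlj]
          exact e
      refine ⟨r, Or.inl rfl, ?_, ?_⟩
      · intro i
        refine le_trans (Finset.card_le_card ?_) (hs.1 i)
        intro l hl
        rw [Finset.mem_filter] at hl ⊢
        exact ⟨hl.1, hagree l i hl.2⟩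
      · intro l i i' hne e e'
        exact hs.2 l i i' hne (hagree l i e) (hagree l i' e')
  · push Not at hex
    have : c = c' := funext hex
    subst this
    exact ⟨hs.not_at, r, Or.inl rfl, hs⟩

theorem not_catch {B : ℕ} (hB : 1 ≤ B) (h : 2 * (B - 1) + k / B < m) (t : ℕ) :
    ∀ (c : Fin k → Fin 3 → Fin m) (r : Fin 3 → Fin m), Safe B c r →
      ¬ CatchWithin (hamming m) k t c r := by
  induction t with
  | zero =>
    rintro c r hs ⟨i, hi⟩
    exact hs.not_at i hi
  | succ t ih =>
    rintro c r hs (⟨i, hi⟩ | ⟨c', hm, hc⟩)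
    · exact hs.not_at i hi
    · obtain ⟨hnr, r', hstep, hs'⟩ := respond hB h hs hm
      rcases hc with ⟨i, hi⟩ | hc
      · exact hnr i hi
      · exact ih c' r' hs' (hc r' hstep)

theorem not_lazyCopsWin {B : ℕ} (hB : 1 ≤ B) (h : 2 * (B - 1) + k / B < m) :
    ¬ LazyCopsWin (hamming m) k := by
  rintro ⟨c, hc⟩
  obtain ⟨r, hs⟩ := exists_safe c hB h
  obtain ⟨t, ht⟩ := hc r
  exact not_catch hB h t c r hs ht

/-- The lower bound for the lazy cop number of `H(3, m)`. -/
theorem lt_lazyCopNumber {m k B : ℕ} (hB : 1 ≤ B) (h : 2 * (B - 1) + k / B < m) :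
    k < lazyCopNumber (hamming m) := by
  have hne : {k : ℕ | LazyCopsWin (hamming m) k}.Nonempty := ⟨_, lazyCopsWin_card _⟩
  unfold lazyCopNumber
  rw [← Nat.succ_le_iff]
  apply le_csInf hne
  intro k' hk'
  have hk'' : LazyCopsWin (hamming m) k' := hk'
  by_contra hlt
  have hle : k' ≤ k := by omega
  have h2 : k' / B ≤ k / B := Nat.div_le_div_right hle
  exact not_lazyCopsWin hB (by omega) hk''

theorem connected (hm : 1 ≤ m) : (hamming m).Connected := by
  have hstep : ∀ u v, Step (hamming m) u v → (hamming m).Reachable u v := by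
    rintro u v (rfl | h)
    · exact SimpleGraph.Reachable.refl _
    · exact h.reachable
  have : Nonempty (Fin 3 → Fin m) := ⟨fun _ => ⟨0, hm⟩⟩
  refine ⟨fun u v => ?_⟩
  have h0 := hstep _ _ (step_update u 0 (v 0))
  have h1 := hstep _ _ (step_update (Function.update u 0 (v 0)) 1 (v 1))
  have h2 := hstep _ _
    (step_update (Function.update (Function.update u 0 (v 0)) 1 (v 1)) 2 (v 2))
  have e : Function.update (Function.update (Function.update u 0 (v 0)) 1 (v 1)) 2 (v 2) = v := by
    funext i
    fin_cases i <;> simp [Function.update]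
  rw [e] at h2
  exact (h0.trans h1).trans h2

/-- **Q1 of MP_9f93d5_co is false.**  For `B ≥ 1` and `2 (B - 1) + K / B < m` the lazy cop number
of the Hamming graph `H(3, m)` is larger than `K`.  In particular `G = H(3, 64)` is a connected
graph with `n = 512²` vertices (so that `Δ(G) ≥ n - 512²`) and `c_L(G) ≥ 513`. -/
theorem result :
    (∀ m K B : ℕ, 1 ≤ B → 2 * (B - 1) + K / B < m → K < lazyCopNumber (hamming m)) ∧
    ((hamming 64).Connected ∧ Fintype.card (Fin 3 → Fin 64) = 512 ^ 2 ∧
      513 ≤ lazyCopNumber (hamming 64)) ∧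
    ¬ (∀ (k : ℕ), 1 ≤ k → ∀ (V : Type) (_ : Fintype V) (G : SimpleGraph V)
        (_ : DecidableRel G.Adj), G.Connected → Fintype.card V ≤ G.maxDegree + k ^ 2 →
        lazyCopNumber G ≤ k) := by
  classical
  have hc : (hamming 64).Connected := connected (by norm_num)
  have hcard : Fintype.card (Fin 3 → Fin 64) = 512 ^ 2 := by
    rw [Fintype.card_pi_const, Fintype.card_fin]
    norm_num
  have hl : 513 ≤ lazyCopNumber (hamming 64) :=
    lt_lazyCopNumber (m := 64) (k := 512) (B := 16) (by norm_num) (by norm_num)
  refine ⟨fun m K B hB h => lt_lazyCopNumber hB h, ⟨hc, hcard, hl⟩, fun h => ?_⟩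
  have := h 512 (by norm_num) (Fin 3 → Fin 64) inferInstance (hamming 64)
    (Classical.decRel _) hc (by rw [hcard]; omega)
  omega

end Pool.Agent.Results.MP_9f93d5_co.HammingCubes
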